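import Mathlib
import Pool.Agent.Run7.h838.KO.Count

/-! Kissing numbers of Orlicz balls: definitions and patterns. -/

set_option autoImplicit false

open Finset

namespace Run7.h838.OB

/-- Orlicz functions: even convex functions `φ` on the real line with `φ 0 = 0` and `φ 1 = 1` -/
structure Orlicz (φ : ℝ → ℝ) : Prop where
  conv : ConvexOn ℝ Set.univ φ
  even : ∀ t, φ (-t) = φ t
  zero : φ 0 = 0
  one : φ 1 = 1

/-- `∑ φ (x i)` -/
noncomputable def modular (φ : ℝ → ℝ) {n : ℕ} (x : Fin n → ℝ) : ℝ := ∑ i, φ (x i)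

/-- `X` is a set of points of the boundary of the convex body `K = {x : ∑ φ (x i) ≤ n}` of `ℝⁿ` with
mutual distances at least one in the norm with unit ball `K`; so the translates of `K` by the
vectors `2 x`, `x ∈ X`, touch `K` and do not overlap. -/
def IsKiss (φ : ℝ → ℝ) (n : ℕ) (X : Finset (Fin n → ℝ)) : Prop :=
  (∀ x ∈ X, modular φ x = n) ∧ ∀ x ∈ X, ∀ y ∈ X, x ≠ y → (n : ℝ) ≤ modular φ (x - y)

/-- the kissing number of the body `{x : ∑ φ (x i) ≤ n}` of `ℝⁿ` -/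
noncomputable def kiss (φ : ℝ → ℝ) (n : ℕ) : ℕ := sSup {k | ∃ X, IsKiss φ n X ∧ X.card = k}

variable {φ ψ : ℝ → ℝ}

namespace Orlicz

lemma nonneg (h : Orlicz φ) (t : ℝ) : 0 ≤ φ t := by
  have h1 := h.conv.2 (Set.mem_univ t) (Set.mem_univ (-t)) (show (0 : ℝ) ≤ 1 / 2 by norm_num)
    (show (0 : ℝ) ≤ 1 / 2 by norm_num) (by norm_num)
  simp only [smul_eq_mul] at h1
  rw [h.even, show 1 / 2 * t + 1 / 2 * -t = 0 by ring, h.zero] at h1
  linarith

lemma le_mul (h : Orlicz φ) {c : ℝ} (hc : 0 ≤ c) (hc1 : c ≤ 1) (t : ℝ) : φ (c * t) ≤ c * φ t := by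
  have h1 := h.conv.2 (Set.mem_univ t) (Set.mem_univ (0 : ℝ)) hc
    (show (0 : ℝ) ≤ 1 - c by linarith) (by ring)
  simp only [smul_eq_mul] at h1
  rw [mul_zero, add_zero, h.zero, mul_zero, add_zero] at h1
  exact h1

lemma mul_le (h : Orlicz φ) {c : ℝ} (hc1 : 1 ≤ c) (t : ℝ) : c * φ t ≤ φ (c * t) := by
  have hc : 0 < c := by linarith
  have h1 := h.le_mul (c := c⁻¹) (by positivity) (inv_le_one_of_one_le₀ hc1) (c * t)
  rw [inv_mul_cancel_left₀ hc.ne'] at h1
  rwa [inv_mul_eq_div, le_div_iff₀ hc, mul_comm] at h1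

lemma abs (h : Orlicz φ) (t : ℝ) : φ |t| = φ t := by
  rcases abs_cases t with ⟨h1, -⟩ | ⟨h1, -⟩ <;> rw [h1]
  exact h.even t

lemma le_abs (h : Orlicz φ) {t : ℝ} (ht : |t| ≤ 1) : φ t ≤ |t| := by
  have := h.le_mul (abs_nonneg t) ht 1
  rw [mul_one, h.one, mul_one, h.abs] at this
  exact this

lemma ge_abs (h : Orlicz φ) {t : ℝ} (ht : 1 ≤ |t|) : |t| ≤ φ t := by
  have := h.mul_le ht 1
  rw [mul_one, h.one, mul_one, h.abs] at this
  exact this

lemma abs_le (h : Orlicz φ) (t : ℝ) : |t| ≤ φ t + 1 := by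
  rcases le_total |t| 1 with h1 | h1
  · linarith [h.nonneg t]
  · linarith [h.ge_abs h1]

lemma cont (h : Orlicz φ) : Continuous φ := by
  rw [← continuousOn_univ]
  exact h.conv.continuousOn isOpen_univ

/-- every nonnegative value is attained -/
lemma surj (h : Orlicz φ) {w : ℝ} (hw : 0 ≤ w) : ∃ t, φ t = w := by
  have h1 : w ∈ Set.Icc (φ 0) (φ (w + 1)) := by
    refine ⟨by rw [h.zero]; exact hw, ?_⟩
    have : |w + 1| = w + 1 := abs_of_nonneg (by linarith)
    have h2 := h.ge_abs (t := w + 1) (by rw [this]; linarith)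
    rw [this] at h2
    linarith
  obtain ⟨t, -, ht⟩ := intermediate_value_Icc (show (0 : ℝ) ≤ w + 1 by linarith)
    h.cont.continuousOn h1
  exact ⟨t, ht⟩

end Orlicz

/-! ### Patterns -/

/-- code of an integer by a nonzero one -/
def cd (v : ℤ) : ℤ := if 0 ≤ v then v + 1 else v

/-- half of the coded integer -/
noncomputable def sh (j : ℤ) : ℝ := if 0 < j then ((j : ℝ) - 1) / 2 else (j : ℝ) / 2

lemma sh_zero : sh 0 = 0 := by simp [sh]

lemma sh_cd (v : ℤ) : sh (cd v) = v / 2 := by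
  unfold sh cd
  by_cases h : 0 ≤ v
  · rw [if_pos h, if_pos (by omega)]
    push_cast
    ring
  · rw [if_neg h, if_neg (by omega)]

lemma abs_cd (v : ℤ) : |cd v| ≤ |v| + 1 := by
  unfold cd
  split_ifs with h
  · rw [abs_of_nonneg h, abs_of_nonneg (by omega)]
  · omega

lemma abs_floor (t : ℝ) : ((|⌊2 * t⌋| : ℤ) : ℝ) ≤ 2 * |t| + 1 := by
  have h1 := Int.floor_le (2 * t)
  have h2 := Int.lt_floor_add_one (2 * t)
  push_cast
  have h3 := abs_nonneg t
  have h4 := neg_abs_le t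
  have h5 := le_abs_self t
  rw [abs_le]
  constructor <;> linarith

/-- the pattern of `x` on `S` -/
noncomputable def pat {n : ℕ} (S : Finset (Fin n)) (x : Fin n → ℝ) (i : Fin n) : ℤ :=
  if i ∈ S then cd ⌊2 * x i⌋ else 0

lemma pat_supp {n : ℕ} (S : Finset (Fin n)) (x : Fin n → ℝ) :
    (univ.filter (fun i => pat S x i ≠ 0)).card ≤ S.card := by
  apply card_le_card
  intro i hi
  rw [mem_filter] at hi
  by_contra h
  exact hi.2 (if_neg h)

lemma pat_sum {n : ℕ} (h : Orlicz φ) (S : Finset (Fin n)) {x : Fin n → ℝ} (hx : modular φ x = n) :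
    ((∑ i, |pat S x i| : ℤ) : ℝ) ≤ 6 * n := by
  have h1 : ∀ i, ((|pat S x i| : ℤ) : ℝ) ≤ 2 * φ (x i) + 4 := by
    intro i
    have h0 := h.nonneg (x i)
    unfold pat
    split_ifs with hi
    · have h2 : ((|cd ⌊2 * x i⌋| : ℤ) : ℝ) ≤ ((|⌊2 * x i⌋| + 1 : ℤ) : ℝ) := by
        exact_mod_cast abs_cd _
      have h3 := abs_floor (x i)
      have h4 := h.abs_le (x i)
      push_cast at h2 h3 ⊢
      linarith
    · simp only [abs_zero, Int.cast_zero]
      linarith
  have h2 : ((∑ i, |pat S x i| : ℤ) : ℝ) ≤ ∑ i : Fin n, (2 * φ (x i) + 4) := by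
    rw [Int.cast_sum]
    exact sum_le_sum fun i _ => h1 i
  rw [sum_add_distrib, ← mul_sum, sum_const, card_univ, Fintype.card_fin, nsmul_eq_mul] at h2
  unfold modular at hx
  rw [hx] at h2
  linarith

/-- the rest of `x` -/
noncomputable def rest {n : ℕ} (S : Finset (Fin n)) (x : Fin n → ℝ) (i : Fin n) : ℝ :=
  x i - sh (pat S x i)

lemma rest_mem {n : ℕ} {S : Finset (Fin n)} (x : Fin n → ℝ) {i : Fin n} (hi : i ∈ S) :
    0 ≤ rest S x i ∧ rest S x i ≤ 1 / 2 := by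
  unfold rest pat
  rw [if_pos hi, sh_cd]
  have h1 := Int.floor_le (2 * x i)
  have h2 := Int.lt_floor_add_one (2 * x i)
  constructor <;> linarith

lemma rest_not {n : ℕ} {S : Finset (Fin n)} (x : Fin n → ℝ) {i : Fin n} (hi : i ∉ S) :
    rest S x i = x i := by
  unfold rest pat
  rw [if_neg hi, sh_zero, sub_zero]

/-- the largest values -/
lemma exists_top {n : ℕ} (f : Fin n → ℝ) (m : ℕ) (hm : m ≤ n) :
    ∃ S : Finset (Fin n), S.card = m ∧ ∀ i ∈ S, ∀ j ∉ S, f j ≤ f i := by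
  induction m with
  | zero => exact ⟨∅, rfl, fun i hi => absurd hi (notMem_empty i)⟩
  | succ m ih =>
    obtain ⟨S, hS, h⟩ := ih (by omega)
    have hne : (univ \ S).Nonempty := by
      rw [← card_pos, card_sdiff_of_subset (subset_univ S), card_univ, Fintype.card_fin, hS]
      omega
    obtain ⟨j, hj, hmax⟩ := exists_max_image (univ \ S) f hne
    have hjS : j ∉ S := (mem_sdiff.1 hj).2
    refine ⟨insert j S, by rw [card_insert_of_notMem hjS, hS], ?_⟩
    intro i hi k hk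
    rw [mem_insert, not_or] at hk
    rcases mem_insert.1 hi with rfl | hi
    · exact hmax k (mem_sdiff.2 ⟨mem_univ k, hk.2⟩)
    · exact h i hi k hk.2

/-- consequences for a sum `n` -/
lemma top_sum {n m : ℕ} (hm : 0 < m) (f : Fin n → ℝ) (hf : ∀ i, 0 ≤ f i)
    (hsum : ∑ i, f i = n) {S : Finset (Fin n)} (hS : S.card = m)
    (h : ∀ i ∈ S, ∀ j ∉ S, f j ≤ f i) :
    (m : ℝ) ≤ ∑ i ∈ S, f i ∧ ∀ j ∉ S, f j ≤ n / m := by
  have hm' : (0 : ℝ) < m := by exact_mod_cast hm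
  have hSne : S.Nonempty := by rw [← card_pos, hS]; exact hm
  obtain ⟨i0, hi0, hmin⟩ := exists_min_image S f hSne
  obtain ⟨t, ht⟩ : ∃ t, t = f i0 := ⟨_, rfl⟩
  have ht0 : 0 ≤ t := by rw [ht]; exact hf _
  have h1 : (m : ℝ) * t ≤ ∑ i ∈ S, f i := by
    rw [← hS, ← nsmul_eq_mul]
    exact card_nsmul_le_sum _ _ _ fun i hi => by rw [ht]; exact hmin i hi
  have h2 : ∑ i ∈ S, f i ≤ n := by
    rw [← hsum]
    exact sum_le_univ_sum_of_nonneg hf
  have h3 : ∑ i ∈ univ \ S, f i ≤ ((n : ℝ) - m) * t := by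
    have h4 := sum_le_card_nsmul (univ \ S) f t fun i hi => by
      rw [ht]
      exact h i0 hi0 i (mem_sdiff.1 hi).2
    rw [nsmul_eq_mul, card_sdiff_of_subset (subset_univ S), card_univ, Fintype.card_fin, hS] at h4
    have h5 : m ≤ n := by
      rw [← hS]
      simpa using card_le_univ S
    rwa [Nat.cast_sub h5] at h4
  have h4 : ∑ i ∈ S, f i + ∑ i ∈ univ \ S, f i = n := by
    rw [← hsum, add_comm]
    exact sum_sdiff (subset_univ S)
  refine ⟨?_, fun j hj => ?_⟩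
  · -- `m n ≤ m A + m B ≤ m A + (n - m) A`
    have h5 : (m : ℝ) ≤ n := by
      have : m ≤ n := by
        rw [← hS]
        simpa using card_le_univ S
      exact_mod_cast this
    have h6 : (m : ℝ) * n ≤ n * ∑ i ∈ S, f i := by
      calc (m : ℝ) * n = m * ∑ i ∈ S, f i + m * ∑ i ∈ univ \ S, f i := by rw [← mul_add, h4]
        _ ≤ m * ∑ i ∈ S, f i + m * (((n : ℝ) - m) * t) := by
            have := mul_le_mul_of_nonneg_left h3 hm'.le
            linarith
        _ = m * ∑ i ∈ S, f i + ((n : ℝ) - m) * (m * t) := by ring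
        _ ≤ m * ∑ i ∈ S, f i + ((n : ℝ) - m) * ∑ i ∈ S, f i := by
            have := mul_le_mul_of_nonneg_left h1 (show (0 : ℝ) ≤ n - m by linarith)
            linarith
        _ = n * ∑ i ∈ S, f i := by ring
    have hn : (0 : ℝ) < n := by linarith
    have h7 : (n : ℝ) * m ≤ n * ∑ i ∈ S, f i := by linarith
    exact le_of_mul_le_mul_left h7 hn
  · rw [le_div_iff₀ hm']
    have h5 : f j ≤ t := by rw [ht]; exact h i0 hi0 j hj
    calc f j * m ≤ t * m := mul_le_mul_of_nonneg_right h5 hm'.le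
      _ = m * t := mul_comm _ _
      _ ≤ n := h1.trans h2

end Run7.h838.OB
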