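import Pool.Agent.Run7.h838.OB.Pow

/-! Kissing numbers of polytopes close to the Euclidean ball. -/

set_option autoImplicit false

open Finset Filter Topology Pool.Agent.H818R2

namespace Run7.h838.OB

/-- the even function which interpolates `t ^ 2` linearly between consecutive multiples of `1 / m` -/
noncomputable def itp (m : ℕ) (t : ℝ) : ℝ :=
  ((2 * (⌊m * |t|⌋₊ : ℝ) + 1) * (m * |t|) - (⌊m * |t|⌋₊ : ℝ) * ((⌊m * |t|⌋₊ : ℝ) + 1)) / m ^ 2

lemma chord_le (k j : ℕ) {s : ℝ} (h1 : (k : ℝ) ≤ s) (h2 : s < k + 1) :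
    (2 * (j : ℝ) + 1) * s - j * (j + 1) ≤ (2 * (k : ℝ) + 1) * s - k * (k + 1) := by
  have e : ((2 * (k : ℝ) + 1) * s - k * (k + 1)) - ((2 * (j : ℝ) + 1) * s - j * (j + 1)) =
      (k - j) * (2 * s - k - j - 1) := by ring
  have h : 0 ≤ ((k : ℝ) - j) * (2 * s - k - j - 1) := by
    rcases lt_trichotomy k j with h | h | h
    · have h' : (k : ℝ) + 1 ≤ j := by exact_mod_cast h
      apply mul_nonneg_of_nonpos_of_nonpos <;> linarith
    · subst h
      simp
    · have h' : (j : ℝ) + 1 ≤ k := by exact_mod_cast h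
      apply mul_nonneg <;> linarith
  linarith

lemma itp_ge {m : ℕ} (hm : 0 < m) (j : ℕ) (t : ℝ) :
    ((2 * (j : ℝ) + 1) * (m * |t|) - j * (j + 1)) / m ^ 2 ≤ itp m t := by
  unfold itp
  apply div_le_div_of_nonneg_right _ (by positivity)
  apply chord_le
  · exact Nat.floor_le (by positivity)
  · exact Nat.lt_floor_add_one _

lemma orlicz_itp {m : ℕ} (hm : 0 < m) : Orlicz (itp m) where
  conv := by
    have hm' : (0 : ℝ) < m := by exact_mod_cast hm
    refine ⟨convex_univ, ?_⟩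
    intro x _ y _ a b ha hb hab
    simp only [smul_eq_mul]
    obtain ⟨j, hj⟩ : ∃ j : ℕ, j = ⌊m * |a * x + b * y|⌋₊ := ⟨_, rfl⟩
    have h1 : |a * x + b * y| ≤ a * |x| + b * |y| := by
      refine (abs_add_le _ _).trans ?_
      rw [abs_mul, abs_mul, abs_of_nonneg ha, abs_of_nonneg hb]
    have h2 := mul_le_mul_of_nonneg_left (itp_ge hm j x) ha
    have h3 := mul_le_mul_of_nonneg_left (itp_ge hm j y) hb
    refine le_trans ?_ (add_le_add h2 h3)
    unfold itp
    rw [← hj, ← mul_div_assoc, ← mul_div_assoc, ← add_div]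
    apply div_le_div_of_nonneg_right _ (by positivity)
    have h4 : (2 * (j : ℝ) + 1) * (m * |a * x + b * y|) ≤
        (2 * (j : ℝ) + 1) * (m * (a * |x| + b * |y|)) :=
      mul_le_mul_of_nonneg_left (mul_le_mul_of_nonneg_left h1 hm'.le) (by positivity)
    have h5 : a * ((2 * (j : ℝ) + 1) * (m * |x|) - j * (j + 1)) +
        b * ((2 * (j : ℝ) + 1) * (m * |y|) - j * (j + 1)) =
        (2 * (j : ℝ) + 1) * (m * (a * |x| + b * |y|)) - (a + b) * (j * (j + 1)) := by ring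
    rw [h5, hab, one_mul]
    linarith
  even t := by
    unfold itp
    rw [abs_neg]
  zero := by
    unfold itp
    simp
  one := by
    have hm' : (m : ℝ) ≠ 0 := by exact_mod_cast hm.ne'
    unfold itp
    rw [abs_one, mul_one, Nat.floor_natCast]
    field_simp
    ring

lemma itp_close {m : ℕ} (hm : 0 < m) (t : ℝ) : |itp m t - pw 2 t| ≤ 1 / m := by
  have hm' : (1 : ℝ) ≤ m := by exact_mod_cast hm
  have hm0 : (0 : ℝ) < m := by linarith
  obtain ⟨s, hs⟩ : ∃ s : ℝ, s = m * |t| := ⟨_, rfl⟩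
  have hs0 : 0 ≤ s := by rw [hs]; positivity
  obtain ⟨k, hk⟩ : ∃ k : ℕ, k = ⌊s⌋₊ := ⟨_, rfl⟩
  have h1 : (k : ℝ) ≤ s := by rw [hk]; exact Nat.floor_le hs0
  have h2 : s < k + 1 := by rw [hk]; exact Nat.lt_floor_add_one s
  have h3 : pw 2 t = s ^ 2 / m ^ 2 := by
    unfold pw
    rw [show (2 : ℝ) = ((2 : ℕ) : ℝ) by norm_num, Real.rpow_natCast, hs, mul_pow]
    field_simp
  have h4 : itp m t = ((2 * (k : ℝ) + 1) * s - k * (k + 1)) / m ^ 2 := by
    unfold itp
    rw [← hs, ← hk]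
  rw [h3, h4, ← sub_div, abs_div, abs_of_nonneg (by positivity : (0 : ℝ) ≤ (m : ℝ) ^ 2),
    show (2 * (k : ℝ) + 1) * s - k * (k + 1) - s ^ 2 = (s - k) * (k + 1 - s) by ring,
    abs_of_nonneg (mul_nonneg (by linarith) (by linarith)), div_le_div_iff₀ (by positivity) hm0]
  have h5 : (s - k) * (k + 1 - s) ≤ 1 := by nlinarith
  nlinarith

/-- the exponents of the Euclidean ball as limits -/
theorem lim_itp :
    Tendsto (fun m => limsup (rate (itp m)) atTop) atTop
      (𝓝 (limsup (fun d : ℕ => Real.logb 2 (kissing d) / d) atTop)) ∧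
    Tendsto (fun m => liminf (rate (itp m)) atTop) atTop
      (𝓝 (liminf (fun d : ℕ => Real.logb 2 (kissing d) / d) atTop)) := by
  rw [← rate_two]
  have key : ∀ ε > 0, ∃ N : ℕ, ∀ m ≥ N,
      |limsup (rate (itp m)) atTop - limsup (rate (pw 2)) atTop| < ε ∧
      |liminf (rate (itp m)) atTop - liminf (rate (pw 2)) atTop| < ε := by
    intro ε hε
    obtain ⟨ρ, hρ, h⟩ := near_lim (orlicz_pw (show (1 : ℝ) ≤ 2 by norm_num))
      (show 0 < ε / 2 by positivity)
    obtain ⟨N, hN⟩ := exists_nat_gt (1 / ρ)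
    refine ⟨N, fun m hm => ?_⟩
    have hNm : 1 / ρ < m := lt_of_lt_of_le hN (by exact_mod_cast hm)
    have hm0' : (0 : ℝ) < m := lt_trans (by positivity) hNm
    have hm0 : 0 < m := by exact_mod_cast hm0'
    have h3 := h (itp m) (orlicz_itp hm0) (fun t _ => (itp_close hm0 t).trans (by
      rw [div_le_iff₀ hm0']
      rw [div_lt_iff₀ hρ] at hNm
      linarith))
    exact ⟨by linarith [h3.1], by linarith [h3.2]⟩
  constructor <;> rw [Metric.tendsto_atTop] <;> intro ε hε <;> obtain ⟨N, hN⟩ := key ε hε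
  · exact ⟨N, fun m hm => (hN m hm).1⟩
  · exact ⟨N, fun m hm => (hN m hm).2⟩

/-- `p → 2` -/
theorem lim_pow :
    Tendsto (fun p : ℝ => limsup (rate (pw p)) atTop) (𝓝 2)
      (𝓝 (limsup (fun d : ℕ => Real.logb 2 (kissing d) / d) atTop)) ∧
    Tendsto (fun p : ℝ => liminf (rate (pw p)) atTop) (𝓝 2)
      (𝓝 (liminf (fun d : ℕ => Real.logb 2 (kissing d) / d) atTop)) := by
  rw [← rate_two]
  have h2 : Set.Ici (1 : ℝ) ∈ 𝓝 (2 : ℝ) := Ici_mem_nhds (by norm_num)
  exact ⟨cont_pow.1.continuousAt h2, cont_pow.2.continuousAt h2⟩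

end Run7.h838.OB
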