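import Pool.Agent.Run7.h838.OB.Tr

/-! Kissing numbers of Orlicz balls: continuity. -/

set_option autoImplicit false

open Finset Filter Topology

namespace Run7.h838.OB

variable {φ ψ : ℝ → ℝ}

/-- **Close Orlicz functions.** -/
theorem near (hφ : Orlicz φ) {ε : ℝ} (hε : 0 < ε) : ∃ ρ : ℝ, 0 < ρ ∧ ∃ n0 : ℕ, ∀ ψ : ℝ → ℝ,
    Orlicz ψ → (∀ t, |t| ≤ 1 / ρ → |ψ t - φ t| ≤ ρ) → ∀ n ≥ n0,
    (kiss φ n : ℝ) ≤ Real.exp (ε * n) * kiss ψ (n + 1) ∧
    (kiss ψ n : ℝ) ≤ Real.exp (ε * n) * kiss φ (n + 1) := by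
  obtain ⟨δ, hδ⟩ : ∃ δ : ℝ, δ = min 1 ((ε / 19) ^ 2) := ⟨_, rfl⟩
  have hδ0 : 0 < δ := by rw [hδ]; exact lt_min one_pos (by positivity)
  have hδ1 : δ ≤ 1 := by rw [hδ]; exact min_le_left _ _
  have hsq : 19 * Real.sqrt δ ≤ ε := by
    have h1 : Real.sqrt δ ≤ ε / 19 := by
      rw [Real.sqrt_le_left (by positivity), hδ]
      exact min_le_right _ _
    linarith
  obtain ⟨B, hB⟩ : ∃ B : ℝ, B = 1 + 1 / δ := ⟨_, rfl⟩
  have hB1 : 1 ≤ B := by
    have : 0 < 1 / δ := by positivity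
    linarith
  have huc := (isCompact_Icc (a := -(2 * B)) (b := 2 * B)).uniformContinuousOn_of_continuous
    hφ.cont.continuousOn
  rw [Metric.uniformContinuousOn_iff] at huc
  obtain ⟨r, hr, huc⟩ := huc (δ / 8) (by positivity)
  obtain ⟨κ, hκ⟩ : ∃ κ : ℝ, κ = min 1 (r / (2 * B)) := ⟨_, rfl⟩
  have hκ0 : 0 < κ := by rw [hκ]; exact lt_min one_pos (by positivity)
  have hκ1 : κ ≤ 1 := by rw [hκ]; exact min_le_left _ _
  have hκB : κ * B < r := by
    have h1 : κ ≤ r / (2 * B) := by rw [hκ]; exact min_le_right _ _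
    rw [le_div_iff₀ (by positivity)] at h1
    linarith
  have hmod : ∀ t, |t| ≤ B → φ ((1 + κ) * t) ≤ φ t + δ / 8 := by
    intro t ht
    have ht' := abs_le.1 ht
    have h1 : |(1 + κ) * t| ≤ 2 * B := by
      rw [abs_mul, abs_of_nonneg (by linarith : (0 : ℝ) ≤ 1 + κ)]
      exact mul_le_mul (by linarith) ht (abs_nonneg t) (by norm_num)
    have h2 := huc ((1 + κ) * t) (abs_le.1 h1) t ⟨by linarith [ht'.1], by linarith [ht'.2]⟩ (by
      rw [Real.dist_eq, show (1 + κ) * t - t = κ * t by ring, abs_mul, abs_of_pos hκ0]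
      exact lt_of_le_of_lt (mul_le_mul_of_nonneg_left ht hκ0.le) hκB)
    rw [Real.dist_eq] at h2
    have h3 := (abs_lt.1 h2).2
    linarith
  obtain ⟨ρ, hρ⟩ : ∃ ρ : ℝ, ρ = min (κ / 4) (min (δ / 8) (1 / (2 * B))) := ⟨_, rfl⟩
  have hρ0 : 0 < ρ := by rw [hρ]; exact lt_min (by positivity) (lt_min (by positivity) (by positivity))
  have hρ1 : ρ ≤ κ / 4 := by rw [hρ]; exact min_le_left _ _
  have hρ2 : ρ ≤ δ / 8 := by rw [hρ]; exact (min_le_right _ _).trans (min_le_left _ _)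
  have hρ3 : 2 * B ≤ 1 / ρ := by
    have h1 : ρ ≤ 1 / (2 * B) := by rw [hρ]; exact (min_le_right _ _).trans (min_le_right _ _)
    rw [le_div_iff₀ hρ0]
    rw [le_div_iff₀ (by positivity)] at h1
    linarith
  refine ⟨ρ, hρ0, ⌈max (1 / δ) (2 / κ)⌉₊, fun ψ hψ hclose n hn => ?_⟩
  have hn' : max (1 / δ) (2 / κ) ≤ n := (Nat.le_ceil _).trans (by exact_mod_cast hn)
  have hn1 : 1 / δ ≤ n := (le_max_left _ _).trans hn'
  have hn2 : 2 / κ ≤ n := (le_max_right _ _).trans hn'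
  have hexp : Real.exp (19 * Real.sqrt δ * n) ≤ Real.exp (ε * n) :=
    Real.exp_le_exp.2 (mul_le_mul_of_nonneg_right hsq (Nat.cast_nonneg n))
  have hc : ∀ t, |t| ≤ 2 * B → ψ t ≤ φ t + ρ ∧ φ t ≤ ψ t + ρ := by
    intro t ht
    have := abs_le.1 (hclose t (ht.trans hρ3))
    constructor <;> linarith [this.1, this.2]
  constructor
  · refine (transfer hφ hψ hδ0 hδ1 hκ0 hκ1 hB.ge (fun t ht => ?_) (fun t ht => ?_) hn1 hn2).trans
      (mul_le_mul_of_nonneg_right hexp (Nat.cast_nonneg _))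
    · linarith [(hc t ht).2]
    · have h1 : |(1 + κ) * t| ≤ 2 * B := by
        rw [abs_mul, abs_of_nonneg (by linarith : (0 : ℝ) ≤ 1 + κ)]
        exact mul_le_mul (by linarith) ht (abs_nonneg t) (by norm_num)
      linarith [(hc _ h1).1, hmod t ht]
  · refine (transfer hψ hφ hδ0 hδ1 hκ0 hκ1 hB.ge (fun t ht => ?_) (fun t ht => ?_) hn1 hn2).trans
      (mul_le_mul_of_nonneg_right hexp (Nat.cast_nonneg _))
    · linarith [(hc t ht).1]
    · have h2 : |t| ≤ 2 * B := by linarith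
      linarith [(hc t h2).2, hmod t ht]

/-- `(1/n) log_2` of the kissing number of `{x : ∑ φ (x i) ≤ n}` -/
noncomputable def rate (φ : ℝ → ℝ) (n : ℕ) : ℝ := Real.logb 2 (kiss φ n) / n

lemma one_le_kiss (h : Orlicz φ) (n : ℕ) : 1 ≤ kiss φ n := by
  have hX : IsKiss φ n {fun _ => 1} := by
    constructor
    · intro x hx
      rw [mem_singleton] at hx
      subst hx
      unfold modular
      simp [h.one]
    · intro x hx y hy hxy
      rw [mem_singleton] at hx hy
      exact absurd (hx.trans hy.symm) hxy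
  simpa using le_kiss h hX

lemma rate_nonneg (h : Orlicz φ) (n : ℕ) : 0 ≤ rate φ n := by
  apply div_nonneg _ (Nat.cast_nonneg n)
  exact Real.logb_nonneg (by norm_num) (by exact_mod_cast one_le_kiss h n)

lemma rate_le (h : Orlicz φ) (n : ℕ) : rate φ n ≤ 8 := by
  unfold rate
  rcases Nat.eq_zero_or_pos n with rfl | hn
  · simp
  · have hn' : (0 : ℝ) < n := by exact_mod_cast hn
    have hk : (0 : ℝ) < kiss φ n := by exact_mod_cast one_le_kiss h n
    rw [div_le_iff₀ hn', Real.logb_le_iff_le_rpow (by norm_num) hk]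
    have h1 : (kiss φ n : ℝ) ≤ 192 ^ n := by exact_mod_cast kiss_le h n
    refine h1.trans ?_
    rw [Real.rpow_mul (by norm_num), Real.rpow_natCast]
    apply pow_le_pow_left₀ (by norm_num)
    norm_num

lemma lim_shift {u v : ℕ → ℝ} {ε : ℝ} (hu0 : ∀ n, 0 ≤ u n) (hu1 : ∀ n, u n ≤ 8)
    (hv0 : ∀ n, 0 ≤ v n) (hv1 : ∀ n, v n ≤ 8)
    (h : ∀ᶠ n : ℕ in atTop, u n ≤ v (n + 1) + ε + 8 / n) :
    limsup u atTop ≤ limsup v atTop + ε ∧ liminf u atTop ≤ liminf v atTop + ε := by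
  have bu : IsBoundedUnder (· ≥ ·) atTop u := isBoundedUnder_of_eventually_ge (.of_forall hu0)
  have bu' : IsBoundedUnder (· ≤ ·) atTop u := isBoundedUnder_of_eventually_le (.of_forall hu1)
  have bv : IsBoundedUnder (· ≥ ·) atTop v := isBoundedUnder_of_eventually_ge (.of_forall hv0)
  have bv' : IsBoundedUnder (· ≤ ·) atTop v := isBoundedUnder_of_eventually_le (.of_forall hv1)
  have h8 : Tendsto (fun n : ℕ => (8 : ℝ) / n) atTop (𝓝 0) :=
    tendsto_const_div_atTop_nhds_zero_nat 8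
  constructor
  · apply le_of_forall_pos_le_add
    intro c hc
    have h3 := eventually_lt_of_limsup_lt (show limsup v atTop < limsup v atTop + c / 2 by linarith)
      bv'
    have h4 := (tendsto_add_atTop_nat 1).eventually h3
    apply limsup_le_of_le bu.isCoboundedUnder_le
    filter_upwards [h, h4, h8.eventually (gt_mem_nhds (show (0 : ℝ) < c / 2 by linarith))] with n
      a1 a2 a3
    linarith
  · have h4 : liminf u atTop - ε ≤ liminf v atTop := by
      apply le_of_forall_lt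
      intro c hc
      have h1 : c + ε < liminf u atTop := by linarith
      obtain ⟨c', hc', hc''⟩ := exists_between h1
      have h3 := eventually_lt_of_lt_liminf hc'' bu
      obtain ⟨d, hd1, hd2⟩ := exists_between (show c < c' - ε by linarith)
      refine lt_of_lt_of_le hd1 ?_
      apply le_liminf_of_le bv'.isCoboundedUnder_ge
      have h5 := h8.eventually (gt_mem_nhds (show (0 : ℝ) < c' - ε - d by linarith))
      have h6 : ∀ᶠ n : ℕ in atTop, d ≤ v (n + 1) := by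
        filter_upwards [h3, h, h5] with n a1 a2 a3
        linarith
      obtain ⟨N, hN⟩ := eventually_atTop.1 h6
      filter_upwards [eventually_ge_atTop (N + 1)] with n hn
      have := hN (n - 1) (by omega)
      rwa [show n - 1 + 1 = n by omega] at this
    linarith

/-- the limits of close Orlicz functions -/
lemma lim_of_near (hφ : Orlicz φ) (hψ : Orlicz ψ) {ε : ℝ} {n0 : ℕ}
    (h : ∀ n ≥ n0, (kiss φ n : ℝ) ≤ Real.exp (ε * n) * kiss ψ (n + 1)) (hε : 0 < ε) :
    limsup (rate φ) atTop ≤ limsup (rate ψ) atTop + 2 * ε ∧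
    liminf (rate φ) atTop ≤ liminf (rate ψ) atTop + 2 * ε := by
  apply lim_shift (rate_nonneg hφ) (rate_le hφ) (rate_nonneg hψ) (rate_le hψ)
  filter_upwards [eventually_ge_atTop n0, eventually_gt_atTop 0] with n hn hn0
  have hn' : (0 : ℝ) < n := by exact_mod_cast hn0
  have hk1 : (0 : ℝ) < kiss φ n := by exact_mod_cast one_le_kiss hφ n
  have hk2 : (0 : ℝ) < kiss ψ (n + 1) := by exact_mod_cast one_le_kiss hψ (n + 1)
  have h1 := Real.logb_le_logb_of_le (b := 2) (by norm_num) hk1 (h n hn)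
  rw [Real.logb_mul (Real.exp_pos _).ne' hk2.ne'] at h1
  have h2 : Real.logb 2 (Real.exp (ε * n)) ≤ 2 * ε * n := by
    rw [Real.logb, Real.log_exp, div_le_iff₀ (Real.log_pos (by norm_num))]
    have h3 := Real.log_two_gt_d9
    have : 0 < ε * n := by positivity
    nlinarith
  have h3 : Real.logb 2 (kiss ψ (n + 1)) = rate ψ (n + 1) * (n + 1) := by
    unfold rate
    push_cast
    rw [div_mul_cancel₀]
    positivity
  have h4 := rate_le hψ (n + 1)
  have h5 : rate φ n = Real.logb 2 (kiss φ n) / n := rfl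
  rw [h5, div_le_iff₀ hn']
  have h6 : (rate ψ (n + 1) + 2 * ε + 8 / n) * n = rate ψ (n + 1) * n + 2 * ε * n + 8 := by
    field_simp
  rw [h6]
  linarith

/-- **The exponents depend continuously on the Orlicz function.** -/
theorem near_lim (hφ : Orlicz φ) {ε : ℝ} (hε : 0 < ε) : ∃ ρ : ℝ, 0 < ρ ∧ ∀ ψ : ℝ → ℝ,
    Orlicz ψ → (∀ t, |t| ≤ 1 / ρ → |ψ t - φ t| ≤ ρ) →
    |limsup (rate ψ) atTop - limsup (rate φ) atTop| ≤ ε ∧
    |liminf (rate ψ) atTop - liminf (rate φ) atTop| ≤ ε := by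
  obtain ⟨ρ, hρ, n0, h⟩ := near hφ (show 0 < ε / 2 by positivity)
  refine ⟨ρ, hρ, fun ψ hψ hc => ?_⟩
  have h1 := lim_of_near hφ hψ (fun n hn => (h ψ hψ hc n hn).1) (by positivity)
  have h2 := lim_of_near hψ hφ (fun n hn => (h ψ hψ hc n hn).2) (by positivity)
  constructor <;> rw [abs_le] <;> constructor <;> linarith [h1.1, h1.2, h2.1, h2.2]

end Run7.h838.OB
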