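import Pool.Agent.Run7.h838.OB.Near
import Pool.Agent.H818R2.KissDefs

/-! Kissing numbers of superballs and of the Euclidean ball. -/

set_option autoImplicit false

open Finset Filter Topology Pool.Agent.H818R2
open scoped InnerProductSpace

namespace Run7.h838.OB

/-- `|t| ^ p` -/
noncomputable def pw (p t : ℝ) : ℝ := |t| ^ p

lemma orlicz_pw {p : ℝ} (hp : 1 ≤ p) : Orlicz (pw p) where
  conv := by
    refine ⟨convex_univ, ?_⟩
    intro x _ y _ a b ha hb hab
    simp only [smul_eq_mul, pw]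
    have h1 : |a * x + b * y| ≤ a * |x| + b * |y| := by
      refine (abs_add_le _ _).trans ?_
      rw [abs_mul, abs_mul, abs_of_nonneg ha, abs_of_nonneg hb]
    have h2 := (convexOn_rpow hp).2 (Set.mem_Ici.2 (abs_nonneg x)) (Set.mem_Ici.2 (abs_nonneg y))
      ha hb hab
    simp only [smul_eq_mul] at h2
    exact (Real.rpow_le_rpow (abs_nonneg _) h1 (by linarith)).trans h2
  even t := by simp [pw]
  zero := by
    unfold pw
    rw [abs_zero, Real.zero_rpow (by linarith)]
  one := by simp [pw]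

lemma pw_close {p0 R ρ : ℝ} (hp0 : 1 ≤ p0) (hρ : 0 < ρ) : ∃ r > 0, ∀ p, 1 ≤ p → |p - p0| < r →
    ∀ t, |t| ≤ R → |pw p t - pw p0 t| ≤ ρ := by
  have hc : ContinuousOn (fun q : ℝ × ℝ => q.1 ^ q.2) (Set.Icc 0 R ×ˢ Set.Icc 1 (p0 + 1)) := by
    intro q hq
    apply ContinuousAt.continuousWithinAt
    apply Real.continuousAt_rpow_of_pos
    linarith [hq.2.1]
  have huc := (isCompact_Icc.prod isCompact_Icc).uniformContinuousOn_of_continuous hc
  rw [Metric.uniformContinuousOn_iff] at huc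
  obtain ⟨r, hr, huc⟩ := huc ρ hρ
  refine ⟨min r 1, lt_min hr one_pos, fun p hp hpp t ht => ?_⟩
  have h1 := lt_of_lt_of_le hpp (min_le_left _ _)
  have h2 := abs_lt.1 (lt_of_lt_of_le hpp (min_le_right _ _))
  have h3 := huc (|t|, p) ⟨⟨abs_nonneg t, ht⟩, ⟨hp, by linarith [h2.2]⟩⟩ (|t|, p0)
    ⟨⟨abs_nonneg t, ht⟩, ⟨hp0, by linarith⟩⟩ (by
      rw [Prod.dist_eq, dist_self, Real.dist_eq]
      exact max_lt hr h1)
  rw [Real.dist_eq] at h3
  exact h3.le

/-- **The kissing exponents of superballs depend continuously on `p`.** -/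
theorem cont_pow :
    ContinuousOn (fun p : ℝ => limsup (rate (pw p)) atTop) (Set.Ici 1) ∧
    ContinuousOn (fun p : ℝ => liminf (rate (pw p)) atTop) (Set.Ici 1) := by
  have key : ∀ p0 : ℝ, 1 ≤ p0 → ∀ ε > 0, ∃ r > 0, ∀ p, 1 ≤ p → |p - p0| < r →
      |limsup (rate (pw p)) atTop - limsup (rate (pw p0)) atTop| < ε ∧
      |liminf (rate (pw p)) atTop - liminf (rate (pw p0)) atTop| < ε := by
    intro p0 hp0 ε hε
    obtain ⟨ρ, hρ, h⟩ := near_lim (orlicz_pw hp0) (show 0 < ε / 2 by positivity)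
    obtain ⟨r, hr, h2⟩ := pw_close (R := 1 / ρ) hp0 hρ
    refine ⟨r, hr, fun p hp hpp => ?_⟩
    have h3 := h (pw p) (orlicz_pw hp) (h2 p hp hpp)
    exact ⟨by linarith [h3.1], by linarith [h3.2]⟩
  constructor <;> rw [Metric.continuousOn_iff] <;> intro p0 hp0 ε hε <;>
    obtain ⟨r, hr, h⟩ := key p0 hp0 ε hε
  · exact ⟨r, hr, fun p hp hd => (h p hp hd).1⟩
  · exact ⟨r, hr, fun p hp hd => (h p hp hd).2⟩

abbrev E (n : ℕ) := EuclideanSpace ℝ (Fin n)

lemma nsq' {n : ℕ} (x : E n) : ‖x‖ ^ 2 = ∑ i, x i ^ 2 := by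
  rw [EuclideanSpace.norm_sq_eq]
  exact sum_congr rfl fun i _ => by rw [Real.norm_eq_abs, sq_abs]

lemma modular_two {n : ℕ} (x : Fin n → ℝ) : modular (pw 2) x = ∑ i, x i ^ 2 := by
  unfold modular pw
  refine sum_congr rfl fun i _ => ?_
  rw [show (2 : ℝ) = ((2 : ℕ) : ℝ) by norm_num, Real.rpow_natCast, sq_abs]

/-- inner products and distances -/
lemma inner_iff {n : ℕ} {x y : E n} (hx : ‖x‖ = 1) (hy : ‖y‖ = 1) :
    ⟪x, y⟫_ℝ ≤ Real.cos (Real.pi / 3) ↔ 1 ≤ ‖x - y‖ ^ 2 := by
  rw [Real.cos_pi_div_three, @norm_sub_sq_real _ _ _ x y, hx, hy]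
  constructor <;> intro h <;> linarith

/-- for `φ t = t ^ 2` we have the kissing numbers of the Euclidean ball -/
theorem kiss_two {n : ℕ} (hn : 0 < n) : kiss (pw 2) n = kissing n := by
  classical
  unfold kiss kissing sphMax
  have hn' : (0 : ℝ) < n := by exact_mod_cast hn
  obtain ⟨a, ha⟩ : ∃ a : ℝ, a = Real.sqrt n := ⟨_, rfl⟩
  have ha0 : 0 < a := by rw [ha]; exact Real.sqrt_pos.2 hn'
  have haa : a ^ 2 = n := by rw [ha, Real.sq_sqrt hn'.le]
  congr 1
  ext k
  constructor
  · rintro ⟨X, hX, rfl⟩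
    let f : (Fin n → ℝ) → E n := fun x => WithLp.toLp 2 (fun i => x i / a)
    have hfi : ∀ x i, f x i = x i / a := fun x i => rfl
    have hinj : Function.Injective f := by
      intro x y hxy
      funext i
      have : f x i = f y i := by rw [hxy]
      rw [hfi, hfi] at this
      exact (div_left_inj' ha0.ne').1 this
    have hsum : ∀ g : Fin n → ℝ, ∑ i, (g i / a) ^ 2 = (∑ i, g i ^ 2) / n := by
      intro g
      rw [Finset.sum_div]
      exact sum_congr rfl fun i _ => by rw [div_pow, haa]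
    have hnorm : ∀ x ∈ X, ‖f x‖ = 1 := by
      intro x hx
      have h1 := hX.1 x hx
      rw [modular_two] at h1
      have h2 : ‖f x‖ ^ 2 = 1 := by
        rw [nsq']
        simp only [hfi]
        rw [hsum, h1, div_self hn'.ne']
      exact (pow_eq_one_iff_of_nonneg (norm_nonneg _) two_ne_zero).1 h2
    refine ⟨X.image f, ⟨?_, ?_⟩, card_image_of_injective _ hinj⟩
    · intro u hu
      obtain ⟨x, hx, rfl⟩ := mem_image.1 hu
      exact hnorm x hx
    · intro u hu v hv huv
      obtain ⟨x, hx, rfl⟩ := mem_image.1 hu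
      obtain ⟨y, hy, rfl⟩ := mem_image.1 hv
      rw [inner_iff (hnorm x hx) (hnorm y hy), nsq']
      have h1 := hX.2 x hx y hy fun h => huv (by rw [h])
      rw [modular_two] at h1
      have h2 : ∀ i, (f x - f y) i = (x - y) i / a := by
        intro i
        rw [PiLp.sub_apply, hfi, hfi, Pi.sub_apply, sub_div]
      simp only [h2]
      rw [hsum, le_div_iff₀ hn', one_mul]
      exact h1
  · rintro ⟨P, hP, rfl⟩
    let f : (E n) → Fin n → ℝ := fun u i => a * u i
    have hinj : Function.Injective f := by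
      intro x y hxy
      ext i
      have : a * x i = a * y i := congrFun hxy i
      exact mul_left_cancel₀ ha0.ne' this
    have hsum : ∀ g : Fin n → ℝ, ∑ i, (a * g i) ^ 2 = n * ∑ i, g i ^ 2 := by
      intro g
      rw [Finset.mul_sum]
      exact sum_congr rfl fun i _ => by rw [mul_pow, haa]
    refine ⟨P.image f, ⟨?_, ?_⟩, card_image_of_injective _ hinj⟩
    · intro x hx
      obtain ⟨u, hu, rfl⟩ := mem_image.1 hx
      rw [modular_two]
      have h1 := nsq' u
      rw [hP.1 u hu, one_pow] at h1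
      change ∑ i, (a * u i) ^ 2 = n
      rw [hsum (fun i => u i), ← h1, mul_one]
    · intro x hx y hy hxy
      obtain ⟨u, hu, rfl⟩ := mem_image.1 hx
      obtain ⟨v, hv, rfl⟩ := mem_image.1 hy
      have huv : u ≠ v := fun h => hxy (by rw [h])
      have h1 := hP.2 u hu v hv huv
      rw [inner_iff (hP.1 u hu) (hP.1 v hv), nsq'] at h1
      rw [modular_two]
      have h2 : ∀ i, (f u - f v) i = a * (u - v) i := by
        intro i
        rw [PiLp.sub_apply, Pi.sub_apply]
        change a * u i - a * v i = _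
        ring
      simp only [h2]
      rw [hsum (fun i => (u - v) i)]
      nlinarith

lemma rate_two : rate (pw 2) = fun d : ℕ => Real.logb 2 (kissing d) / d := by
  funext n
  unfold rate
  rcases Nat.eq_zero_or_pos n with rfl | hn
  · simp
  · rw [kiss_two hn]

end Run7.h838.OB
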