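import Pool.Agent.Run7.h838.OB.Base

/-! Kissing numbers of Orlicz balls: transfer. -/

set_option autoImplicit false

open Finset Run7.h838.KO

namespace Run7.h838.OB

variable {φ ψ : ℝ → ℝ}

/-- upper bound for the size -/
lemma card_le_exp (h : Orlicz φ) {n : ℕ} {X : Finset (Fin n → ℝ)} (hX : IsKiss φ n X) :
    X.card ≤ 192 ^ n := by
  classical
  have hinj : Set.InjOn (fun x => pat univ x) (X : Set (Fin n → ℝ)) := by
    intro x hx y hy hxy
    by_contra hne
    have h1 := hX.2 x hx y hy hne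
    have h2 : modular φ (x - y) ≤ n / 2 := by
      unfold modular
      calc ∑ i, φ ((x - y) i) ≤ ∑ i : Fin n, (1 / 2 : ℝ) := by
            apply sum_le_sum
            intro i _
            have e1 := rest_mem (S := univ) x (mem_univ i)
            have e2 := rest_mem (S := univ) y (mem_univ i)
            have e3 : pat univ x i = pat univ y i := congrFun hxy i
            unfold rest at e1 e2
            rw [e3] at e1
            have e4 : |(x - y) i| ≤ 1 / 2 := by
              rw [Pi.sub_apply, abs_le]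
              constructor <;> linarith
            exact (h.le_abs (e4.trans (by norm_num))).trans e4
        _ = n / 2 := by rw [sum_const, card_univ, Fintype.card_fin, nsmul_eq_mul]; ring
    have hn0 : n = 0 := by
      have h3 : (0 : ℝ) ≤ n := Nat.cast_nonneg n
      have h4 : (n : ℝ) = 0 := by linarith
      exact_mod_cast h4
    subst hn0
    exact hne (Subsingleton.elim x y)
  have h1 := count (X.image (fun x => pat univ x)) (s := 1 / 2) (t := 1) (S := 6 * n) (K := n)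
    (by norm_num) (by norm_num) (by norm_num) le_rfl (by
      intro k hk
      obtain ⟨x, hx, rfl⟩ := mem_image.1 hk
      exact pat_sum h univ (hX.1 x hx)) (by
      intro k hk
      obtain ⟨x, hx, rfl⟩ := mem_image.1 hk
      have := pat_supp univ x
      rw [card_univ, Fintype.card_fin] at this
      exact_mod_cast this)
  rw [card_image_of_injOn hinj, Real.one_rpow, mul_one] at h1
  have h2 : ((1 : ℝ) / 2) ^ (6 * (n : ℝ)) = (1 / 64) ^ n := by
    rw [Real.rpow_mul (by norm_num), Real.rpow_natCast]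
    norm_num
  rw [h2] at h1
  have h3 : (X.card : ℝ) ≤ 192 ^ n := by
    calc (X.card : ℝ) = X.card * (1 / 64) ^ n * 64 ^ n := by
          rw [mul_assoc, ← mul_pow]
          norm_num
      _ ≤ (1 + 2 * 1 * (1 / 2 / (1 - 1 / 2))) ^ n * 64 ^ n :=
          mul_le_mul_of_nonneg_right h1 (by positivity)
      _ = 192 ^ n := by
          rw [← mul_pow]
          norm_num
  exact_mod_cast h3

lemma bdd (h : Orlicz φ) (n : ℕ) : BddAbove {k | ∃ X, IsKiss φ n X ∧ X.card = k} := by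
  refine ⟨192 ^ n, ?_⟩
  rintro k ⟨X, hX, rfl⟩
  exact card_le_exp h hX

lemma le_kiss (h : Orlicz φ) {n : ℕ} {X : Finset (Fin n → ℝ)} (hX : IsKiss φ n X) :
    X.card ≤ kiss φ n := le_csSup (bdd h n) ⟨X, hX, rfl⟩

lemma nonempty (φ : ℝ → ℝ) (n : ℕ) : {k | ∃ X, IsKiss φ n X ∧ X.card = k}.Nonempty :=
  ⟨0, ∅, ⟨fun x hx => absurd hx (notMem_empty x), fun x hx => absurd hx (notMem_empty x)⟩, rfl⟩

lemma exists_kiss (h : Orlicz φ) (n : ℕ) : ∃ X, IsKiss φ n X ∧ X.card = kiss φ n :=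
  Nat.sSup_mem (nonempty φ n) (bdd h n)

lemma kiss_le (h : Orlicz φ) (n : ℕ) : kiss φ n ≤ 192 ^ n := by
  obtain ⟨X, hX, he⟩ := exists_kiss h n
  rw [← he]
  exact card_le_exp h hX

/-- one class -/
lemma one_class (hψ : Orlicz ψ) {δ κ B : ℝ} (hδ : 0 < δ) (hκ : 0 < κ)
    (hκ1 : κ ≤ 1) (H1 : ∀ t, |t| ≤ 2 * B → φ t - κ / 4 ≤ ψ t)
    (H2 : ∀ t, |t| ≤ B → ψ ((1 + κ) * t) ≤ φ t + δ / 4) {n : ℕ} (hn2 : 2 / κ ≤ n)
    {Y : Finset (Fin n → ℝ)} (w : Fin n → ℝ) (hw1 : ∀ x ∈ Y, ∀ i, |x i - w i| ≤ B)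
    (hw2 : ∀ x ∈ Y, ∑ i, φ (x i - w i) ≤ n - δ * n / 2)
    (hY : ∀ x ∈ Y, ∀ y ∈ Y, x ≠ y → (n : ℝ) ≤ modular φ (x - y)) :
    Y.card ≤ kiss ψ (n + 1) := by
  classical
  have hn0 : (0 : ℝ) < n := lt_of_lt_of_le (by positivity) hn2
  have hκn : 2 ≤ κ * n := by
    rw [div_le_iff₀ hκ] at hn2
    linarith
  obtain ⟨V, hV⟩ : ∃ V : (Fin n → ℝ) → Fin n → ℝ, V = fun x i => (1 + κ) * (x i - w i) := ⟨_, rfl⟩
  have hVm : ∀ x ∈ Y, modular ψ (V x) ≤ n := by
    intro x hx
    unfold modular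
    calc ∑ i, ψ (V x i) ≤ ∑ i, (φ (x i - w i) + δ / 4) := by
          apply sum_le_sum
          intro i _
          rw [hV]
          exact H2 _ (hw1 x hx i)
      _ = ∑ i, φ (x i - w i) + n * (δ / 4) := by
          rw [sum_add_distrib, sum_const, card_univ, Fintype.card_fin, nsmul_eq_mul]
      _ ≤ n - δ * n / 2 + n * (δ / 4) := by linarith [hw2 x hx]
      _ ≤ n := by nlinarith
  have hex : ∀ x : Fin n → ℝ, ∃ t, x ∈ Y → ψ t = n + 1 - modular ψ (V x) := by
    intro x
    by_cases hx : x ∈ Y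
    · obtain ⟨t, ht⟩ := hψ.surj (show (0 : ℝ) ≤ n + 1 - modular ψ (V x) by linarith [hVm x hx])
      exact ⟨t, fun _ => ht⟩
    · exact ⟨0, fun h => absurd h hx⟩
  choose τ hτ using hex
  obtain ⟨G, hG⟩ : ∃ G : (Fin n → ℝ) → Fin (n + 1) → ℝ, G = fun x => Fin.cons (τ x) (V x) :=
    ⟨_, rfl⟩
  have hG1 : ∀ x ∈ Y, modular ψ (G x) = (n + 1 : ℕ) := by
    intro x hx
    unfold modular
    rw [hG, Fin.sum_univ_succ]
    simp only [Fin.cons_zero, Fin.cons_succ]
    have := hτ x hx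
    unfold modular at this
    rw [this]
    push_cast
    ring
  have hG2 : ∀ x ∈ Y, ∀ y ∈ Y, x ≠ y → ((n + 1 : ℕ) : ℝ) ≤ modular ψ (G x - G y) := by
    intro x hx y hy hxy
    unfold modular
    rw [hG, Fin.sum_univ_succ]
    simp only [Pi.sub_apply, Fin.cons_zero, Fin.cons_succ]
    have h1 : ∀ i, (1 + κ) * (φ (x i - y i) - κ / 4) ≤ ψ (V x i - V y i) := by
      intro i
      have e1 : V x i - V y i = (1 + κ) * (x i - y i) := by rw [hV]; ring
      rw [e1]
      refine le_trans ?_ (hψ.mul_le (by linarith) _)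
      apply mul_le_mul_of_nonneg_left _ (by linarith)
      apply H1
      have a1 := hw1 x hx i
      have a2 := hw1 y hy i
      rw [abs_le] at a1 a2 ⊢
      constructor <;> linarith [a1.1, a1.2, a2.1, a2.2]
    have h2 := sum_le_sum fun i (_ : i ∈ (univ : Finset (Fin n))) => h1 i
    rw [← mul_sum, sum_sub_distrib, sum_const, card_univ, Fintype.card_fin, nsmul_eq_mul] at h2
    have h3 : (n : ℝ) ≤ ∑ i, φ (x i - y i) := hY x hx y hy hxy
    have h4 : (1 + κ) * ((n : ℝ) - n * (κ / 4)) ≤ (1 + κ) * (∑ i, φ (x i - y i) - n * (κ / 4)) :=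
      mul_le_mul_of_nonneg_left (by linarith) (by linarith)
    have h5 : (n : ℝ) + 1 ≤ (1 + κ) * ((n : ℝ) - n * (κ / 4)) := by
      have e1 : (1 + κ) * ((n : ℝ) - n * (κ / 4)) = n + (κ * n) * (3 / 4 - κ / 4) := by ring
      rw [e1]
      nlinarith
    have h6 := hψ.nonneg (τ x - τ y)
    push_cast
    linarith
  have hinj : Set.InjOn G (Y : Set (Fin n → ℝ)) := by
    intro x hx y hy hxy
    by_contra hne
    have h1 := hG2 x hx y hy hne
    rw [hxy, sub_self] at h1
    unfold modular at h1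
    simp only [Pi.zero_apply, hψ.zero, sum_const_zero] at h1
    push_cast at h1
    linarith
  have hK : IsKiss ψ (n + 1) (Y.image G) := by
    constructor
    · intro z hz
      obtain ⟨x, hx, rfl⟩ := mem_image.1 hz
      exact hG1 x hx
    · intro z hz z' hz' hne
      obtain ⟨x, hx, rfl⟩ := mem_image.1 hz
      obtain ⟨y, hy, rfl⟩ := mem_image.1 hz'
      exact hG2 x hx y hy fun h => hne (by rw [h])
  rw [← card_image_of_injOn hinj]
  exact le_kiss hψ hK

/-- **Transfer.** -/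
theorem transfer (hφ : Orlicz φ) (hψ : Orlicz ψ) {δ κ B : ℝ} (hδ : 0 < δ) (hδ1 : δ ≤ 1)
    (hκ : 0 < κ) (hκ1 : κ ≤ 1) (hB : 1 + 1 / δ ≤ B)
    (H1 : ∀ t, |t| ≤ 2 * B → φ t - κ / 4 ≤ ψ t)
    (H2 : ∀ t, |t| ≤ B → ψ ((1 + κ) * t) ≤ φ t + δ / 4) {n : ℕ} (hn : 1 / δ ≤ n)
    (hn2 : 2 / κ ≤ n) : (kiss φ n : ℝ) ≤ Real.exp (19 * Real.sqrt δ * n) * kiss ψ (n + 1) := by
  classical
  obtain ⟨X, hX, hXc⟩ := exists_kiss hφ n
  rw [← hXc]
  have hn0 : (0 : ℝ) < n := lt_of_lt_of_le (by positivity) hn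
  have hδn : 1 ≤ δ * n := by
    rw [div_le_iff₀ hδ] at hn
    linarith
  obtain ⟨m, hm⟩ : ∃ m : ℕ, m = ⌈δ * n⌉₊ := ⟨_, rfl⟩
  have hm1 : δ * n ≤ m := by rw [hm]; exact Nat.le_ceil _
  have hm2 : (m : ℝ) ≤ 2 * (δ * n) := by
    have := Nat.ceil_lt_add_one (show 0 ≤ δ * n by positivity)
    rw [← hm] at this
    linarith
  have hmn : m ≤ n := by
    rw [hm]
    apply Nat.ceil_le.2
    nlinarith
  have hm0 : 0 < m := by
    have : (0 : ℝ) < m := by linarith
    exact_mod_cast this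
  have hm0' : (0 : ℝ) < m := by exact_mod_cast hm0
  choose S hS1 hS2 using fun x : Fin n → ℝ => exists_top (fun i => φ (x i)) m hmn
  obtain ⟨P, hP⟩ : ∃ P : (Fin n → ℝ) → Fin n → ℤ, P = fun x => pat (S x) x := ⟨_, rfl⟩
  -- the classes
  have hcl : ∀ k ∈ X.image P, (X.filter (fun x => P x = k)).card ≤ kiss ψ (n + 1) := by
    intro k _
    refine one_class hψ hδ hκ hκ1 H1 H2 hn2 (fun i => sh (k i)) ?_ ?_ ?_
    · intro x hx i
      obtain ⟨hxX, hxk⟩ := mem_filter.1 hx
      obtain ⟨h1, h2⟩ := top_sum hm0 (fun i => φ (x i)) (fun i => hφ.nonneg _) (hX.1 x hxX) (hS1 x)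
        (hS2 x)
      have e1 : x i - sh (k i) = rest (S x) x i := by
        rw [← hxk, hP]
        rfl
      rw [e1]
      have hB1 : 1 ≤ B := by
        have : 0 < 1 / δ := by positivity
        linarith
      by_cases hi : i ∈ S x
      · obtain ⟨a1, a2⟩ := rest_mem x hi
        rw [abs_of_nonneg a1]
        linarith
      · rw [rest_not x hi]
        have a1 := h2 i hi
        have a2 := hφ.abs_le (x i)
        have a3 : (n : ℝ) / m ≤ 1 / δ := by
          rw [div_le_div_iff₀ hm0' hδ]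
          linarith
        linarith
    · intro x hx
      obtain ⟨hxX, hxk⟩ := mem_filter.1 hx
      obtain ⟨h1, h2⟩ := top_sum hm0 (fun i => φ (x i)) (fun i => hφ.nonneg _) (hX.1 x hxX) (hS1 x)
        (hS2 x)
      have e1 : ∀ i, x i - sh (k i) = rest (S x) x i := by
        intro i
        rw [← hxk, hP]
        rfl
      simp only [e1]
      have e2 : ∑ i, φ (rest (S x) x i) = ∑ i ∈ univ \ S x, φ (rest (S x) x i) +
          ∑ i ∈ S x, φ (rest (S x) x i) := (sum_sdiff (subset_univ _)).symm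
      have e3 : ∑ i ∈ univ \ S x, φ (rest (S x) x i) = ∑ i ∈ univ \ S x, φ (x i) :=
        sum_congr rfl fun i hi => by rw [rest_not x (mem_sdiff.1 hi).2]
      have e4 : ∑ i ∈ S x, φ (rest (S x) x i) ≤ m * (1 / 2) := by
        have := sum_le_card_nsmul (S x) (fun i => φ (rest (S x) x i)) (1 / 2) fun i hi => by
          obtain ⟨a1, a2⟩ := rest_mem x hi
          have a3 : |rest (S x) x i| ≤ 1 / 2 := by rwa [abs_of_nonneg a1]
          exact (hφ.le_abs (a3.trans (by norm_num))).trans a3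
        rwa [nsmul_eq_mul, hS1 x] at this
      have e5 : ∑ i ∈ univ \ S x, φ (x i) + ∑ i ∈ S x, φ (x i) = n := by
        rw [sum_sdiff (subset_univ _)]
        exact hX.1 x hxX
      rw [e2, e3]
      have h1' : (m : ℝ) ≤ ∑ i ∈ S x, φ (x i) := h1
      linarith
    · intro x hx y hy hxy
      exact hX.2 x (mem_filter.1 hx).1 y (mem_filter.1 hy).1 hxy
  have hc1 := card_le_mul_card_image (f := P) X (kiss ψ (n + 1)) hcl
  have hc2 : (X.card : ℝ) ≤ kiss ψ (n + 1) * (X.image P).card := by exact_mod_cast hc1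
  -- the number of classes
  have hs1 : (1 : ℝ) / (1 + δ) < 1 := by
    rw [div_lt_one (by linarith)]
    linarith
  have ht1 : δ ^ 2 / 2 ≤ 1 := by nlinarith
  have hcnt := count (X.image P) (s := 1 / (1 + δ)) (t := δ ^ 2 / 2) (S := 6 * n) (K := m)
    (by positivity) hs1 (by positivity) ht1 (by
      intro k hk
      obtain ⟨x, hx, rfl⟩ := mem_image.1 hk
      rw [hP]
      exact pat_sum hφ (S x) (hX.1 x hx)) (by
      intro k hk
      obtain ⟨x, hx, rfl⟩ := mem_image.1 hk
      have := pat_supp (S x) x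
      rw [hS1 x] at this
      rw [hP]
      exact_mod_cast this)
  have e1 : 1 + 2 * (δ ^ 2 / 2) * (1 / (1 + δ) / (1 - 1 / (1 + δ))) = 1 + δ := by
    have : 1 - 1 / (1 + δ) = δ / (1 + δ) := by
      field_simp
      ring
    rw [this]
    field_simp
  rw [e1] at hcnt
  have hδe : 1 + δ ≤ Real.exp δ := by linarith [Real.add_one_le_exp δ]
  have e2 : (1 + δ) ^ n ≤ Real.exp (δ * n) := by
    calc (1 + δ) ^ n ≤ Real.exp δ ^ n := pow_le_pow_left₀ (by linarith) hδe n
      _ = Real.exp (δ * n) := by rw [← Real.exp_nat_mul, mul_comm]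
  have e3 : Real.exp (-(6 * δ * n)) ≤ (1 / (1 + δ)) ^ (6 * (n : ℝ)) := by
    have h1 : Real.exp (-δ) ≤ 1 / (1 + δ) := by
      rw [Real.exp_neg, ← one_div]
      exact one_div_le_one_div_of_le (by linarith) hδe
    calc Real.exp (-(6 * δ * n)) = Real.exp (-δ) ^ (6 * (n : ℝ)) := by
          rw [← Real.exp_mul]
          congr 1
          ring
      _ ≤ _ := Real.rpow_le_rpow (Real.exp_pos _).le h1 (by positivity)
  have hlog : Real.log (2 / δ ^ 2) ≤ 6 / Real.sqrt δ := by
    obtain ⟨u, hu⟩ : ∃ u, u = Real.sqrt δ := ⟨_, rfl⟩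
    have hu0 : 0 < u := by rw [hu]; exact Real.sqrt_pos.2 hδ
    have huu : δ = u ^ 2 := by rw [hu, Real.sq_sqrt hδ.le]
    rw [← hu, huu]
    have h1 : Real.log (2 / (u ^ 2) ^ 2) = Real.log 2 + 4 * Real.log (1 / u) := by
      rw [Real.log_div (by norm_num) (by positivity), Real.log_div one_ne_zero hu0.ne',
        Real.log_one, ← pow_mul, Real.log_pow]
      push_cast
      ring
    have h2 : Real.log (1 / u) ≤ 1 / u - 1 := Real.log_le_sub_one_of_pos (by positivity)
    have h3 : Real.log 2 < 1 := by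
      have := Real.log_two_lt_d9
      linarith
    have h4 : 4 * (1 / u) ≤ 6 / u := by
      rw [mul_one_div]
      exact div_le_div_of_nonneg_right (by norm_num) hu0.le
    rw [h1]
    linarith
  have e4 : Real.exp (-(12 * Real.sqrt δ * n)) ≤ (δ ^ 2 / 2) ^ (m : ℝ) := by
    have h1 : Real.log (δ ^ 2 / 2) = -Real.log (2 / δ ^ 2) := by
      rw [← Real.log_inv, inv_div]
    rw [Real.rpow_def_of_pos (by positivity), h1, Real.exp_le_exp]
    have h2 : (m : ℝ) * Real.log (2 / δ ^ 2) ≤ (2 * (δ * n)) * (6 / Real.sqrt δ) := by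
      calc (m : ℝ) * Real.log (2 / δ ^ 2) ≤ m * (6 / Real.sqrt δ) :=
            mul_le_mul_of_nonneg_left hlog hm0'.le
        _ ≤ _ := mul_le_mul_of_nonneg_right hm2 (by positivity)
    have h3 : (2 * (δ * n)) * (6 / Real.sqrt δ) = 12 * Real.sqrt δ * n := by
      have : δ / Real.sqrt δ = Real.sqrt δ := Real.div_sqrt
      calc (2 * (δ * n)) * (6 / Real.sqrt δ) = 12 * (δ / Real.sqrt δ) * n := by ring
        _ = _ := by rw [this]
    linarith
  have hsq : δ ≤ Real.sqrt δ := by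
    rw [Real.le_sqrt hδ.le]
    · nlinarith
    · exact hδ.le
  have hcard : ((X.image P).card : ℝ) ≤ Real.exp (19 * Real.sqrt δ * n) := by
    have h1 : ((X.image P).card : ℝ) * (Real.exp (-(6 * δ * n)) * Real.exp (-(12 * Real.sqrt δ * n)))
        ≤ Real.exp (δ * n) := by
      refine le_trans ?_ (hcnt.trans e2)
      apply mul_le_mul_of_nonneg_left _ (Nat.cast_nonneg _)
      exact mul_le_mul e3 e4 (Real.exp_pos _).le (by positivity)
    rw [← Real.exp_add] at h1
    calc ((X.image P).card : ℝ) = ((X.image P).card : ℝ) *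
          Real.exp (-(6 * δ * n) + -(12 * Real.sqrt δ * n)) *
          Real.exp (6 * δ * n + 12 * Real.sqrt δ * n) := by
          rw [mul_assoc, ← Real.exp_add]
          rw [show -(6 * δ * n) + -(12 * Real.sqrt δ * n) + (6 * δ * n + 12 * Real.sqrt δ * n) = 0
            by ring, Real.exp_zero, mul_one]
      _ ≤ Real.exp (δ * n) * Real.exp (6 * δ * n + 12 * Real.sqrt δ * n) :=
          mul_le_mul_of_nonneg_right h1 (Real.exp_pos _).le
      _ = Real.exp (7 * δ * n + 12 * Real.sqrt δ * n) := by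
          rw [← Real.exp_add]
          congr 1
          ring
      _ ≤ _ := by
          apply Real.exp_le_exp.2
          have := mul_le_mul_of_nonneg_right hsq hn0.le
          linarith
  calc (X.card : ℝ) ≤ kiss ψ (n + 1) * (X.image P).card := hc2
    _ ≤ kiss ψ (n + 1) * Real.exp (19 * Real.sqrt δ * n) :=
        mul_le_mul_of_nonneg_left hcard (Nat.cast_nonneg _)
    _ = _ := mul_comm _ _

end Run7.h838.OB
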